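import Pool.Agent.Q73.Univ.Main

/-!
# MP_051359_an: no function is frequently universal on all compact sets of an annulus
-/

set_option autoImplicit false

open Filter Topology

namespace Pool.Agent.Results.MP_051359_an.EmptyIntersection

/-- the partial sum `S_n(f) = ∑_{k ≤ n} a_k z^k` of the Taylor series of `f` at `0` -/
noncomputable def partialSum (f : ℂ → ℂ) (n : ℕ) (z : ℂ) : ℂ :=
  ∑ k ∈ Finset.range (n + 1), iteratedDeriv k f 0 / (k.factorial : ℂ) * z ^ k

open Classical in
/-- the lower density `liminf #(E ∩ {0, …, N}) / (N + 1)` of a set of natural numbers -/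
noncomputable def lowerDensity (E : Set ℕ) : ℝ :=
  liminf (fun N : ℕ => (((Finset.range (N + 1)).filter (· ∈ E)).card : ℝ) / ((N : ℝ) + 1)) atTop

/-- `f ∈ FU(𝔻, K)`: `f` is holomorphic in the unit disc, and for every `g` continuous on `K` and
holomorphic in the interior of `K` and every `ε > 0` the set of `n` with `‖S_n(f) - g‖_K < ε`
(`|S_n(f) - g| < ε` everywhere on the compact set `K`) has positive lower density -/
def FU (K : Set ℂ) (f : ℂ → ℂ) : Prop :=
  DifferentiableOn ℂ f (Metric.ball 0 1) ∧
  ∀ g : ℂ → ℂ, ContinuousOn g K → DifferentiableOn ℂ g (interior K) → ∀ ε : ℝ, 0 < ε →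
    0 < lowerDensity {n | ∀ z ∈ K, ‖partialSum f n z - g z‖ < ε}

/-- the family `ℳ(r, R)`: compact sets in the closed annulus `r ≤ |z| ≤ R`, off the open unit disc,
with connected complement -/
def MM (r R : ℝ) : Set (Set ℂ) :=
  {K | IsCompact K ∧ K ⊆ {z | r ≤ ‖z‖ ∧ ‖z‖ ≤ R} ∧ K ⊆ {z | 1 ≤ ‖z‖} ∧ IsConnected Kᶜ}

/-- **Q1 of MP_051359_an.** For all `1 ≤ r < R`, no function is a `K`-frequently universal Taylor
series for every `K` in `ℳ(r, R)`. -/
theorem result (r R : ℝ) (hr : 1 ≤ r) (hrR : r < R) :
    {f : ℂ → ℂ | ∀ K ∈ MM r R, FU K f} = ∅ := by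
  rw [Set.eq_empty_iff_forall_notMem]
  intro f hf
  have hr0 : 0 < r := by linarith
  have hmem : ({(r : ℂ)} : Set ℂ) ∈ MM r R := by
    have hn : ‖(r : ℂ)‖ = r := by
      rw [Complex.norm_real, Real.norm_eq_abs, abs_of_pos hr0]
    refine ⟨isCompact_singleton, ?_, ?_, isConnected_compl_singleton_of_one_lt_rank (by simp) _⟩
    · rintro z rfl
      exact ⟨hn.ge, hn.le.trans hrR.le⟩
    · rintro z rfl
      exact hr.trans hn.ge
  have hint : interior ({(r : ℂ)} : Set ℂ) = ∅ := interior_singleton _
  have hfr := (hf _ hmem).2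
  refine Q73.Univ.main (a := fun k => iteratedDeriv k f 0 / (k.factorial : ℂ)) hr hrR ?_ ?_ ?_
  · have := hfr (fun _ => 0) continuousOn_const (by rw [hint]; exact differentiableOn_empty)
      (1 / 4) (by norm_num)
    simp only [Set.mem_singleton_iff, forall_eq, sub_zero] at this
    exact this
  · have := hfr (fun _ => 1) continuousOn_const (by rw [hint]; exact differentiableOn_empty)
      (1 / 4) (by norm_num)
    simp only [Set.mem_singleton_iff, forall_eq] at this
    exact this
  · intro t ht
    have hK : Q73.Univ.KK ((r + R) / 2) R t ∈ MM r R := by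
      refine ⟨Q73.Univ.KK_compact _ _ _, ?_, ?_,
        Q73.Univ.KK_compl_connected (by linarith) (by linarith) ht⟩
      · rintro z ⟨h1, h2, -⟩
        exact ⟨by linarith, h2⟩
      · rintro z ⟨h1, -, -⟩
        simp only [Set.mem_ofPred_eq]
        linarith
    have := (hf _ hK).2 (fun _ => 0) continuousOn_const (differentiableOn_const 0) 1 one_pos
    simp only [sub_zero] at this
    exact this

end Pool.Agent.Results.MP_051359_an.EmptyIntersection
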